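import Pool.Agent.V8H47.DDom.ExA
import Pool.Agent.V8H47.DDom.ExD

/-!
# MP_ef2672_gt: the densest lattices with a diagonally dominant matrix of inner products

`A ℤⁿ` is a lattice, `gam A = λ₁² / det^(2/n)` its Hermite invariant, so that `γ_n` is the supremum
of `gam A`.  A basis with the matrix of inner products `G` (`gram A`)

* gives an *obtuse superbase* (together with minus the sum of its vectors) if `G i j ≤ 0` for
  `i ≠ j` and all the sums of the rows of `G` are nonnegative (lattices of Voronoi's first kind);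
* is *dominant* if `G i i ≥ ∑_{j ≠ i} |G i j|` for all `i`.

* Lattices with an obtuse superbase, and their dual lattices, satisfy `gam ≤ 2 / (n + 1)^(1/n)`, with
  equality for the root lattice `A_n`.
* Lattices with a dominant basis satisfy `gam ≤ 2 / 4^(1/n)` for `n ≥ 3`, with equality for the root
  lattice `D_n`; the dual lattices satisfy `gam ≤ 2`.
* If a lattice has a sublattice of index `k` of one of these kinds, then the bounds hold with the
  additional factor `k^(2/n)`.  So if `gam ≥ ρ n` then `k ≥ (ρ n / 2)^(n/2)`.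

Proof.  The form `G` is the sum of forms `r_i x_i²` and `|G i j| (x_i ± x_j)²` with `r_i ≥ 0`.  Let `W`
be the sum of all the coefficients.  The trace of `G G⁻¹` shows that one of the vectors `e_i`,
`e_i ± e_j` has length at most `n / W` in the dual form.  The restriction of `G` to its orthogonal
complement is of the same kind, has determinant at most `n / W` times that of `G`, and `2 W` is at least
`n λ₁²`, and at least `(n + 1) λ₁²` for an obtuse superbase; the bounds follow by induction.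
-/

open Matrix

namespace Pool.Agent.Results.MP_ef2672_gt.DominantGramMatrices

open Pool.Agent.H160R3.Herm Pool.Agent.TH220.HG Pool.Agent.V8H47.DDom

theorem result :
    (∀ n : ℕ, 0 < n → ∀ A : Matrix (Fin n) (Fin n) ℝ, A.det ≠ 0 →
      ∀ K : Matrix (Fin n) (Fin n) ℤ, K.det ≠ 0 →
      (Obtuse (A * K.map (Int.cast : ℤ → ℝ)) ∨ Obtuse (dual (A * K.map (Int.cast : ℤ → ℝ)))) →
      gam A ≤ (|K.det| : ℝ) ^ ((2 : ℝ) / n) * (2 / (n + 1 : ℝ) ^ ((1 : ℝ) / n))) ∧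
    (∀ n : ℕ, 0 < n → ∃ A : Matrix (Fin n) (Fin n) ℝ, A.det ≠ 0 ∧ Obtuse A ∧
      gram A = (CartanMatrix.A n).map (Int.cast : ℤ → ℝ) ∧
      gam A = 2 / (n + 1 : ℝ) ^ ((1 : ℝ) / n)) ∧
    (∀ n : ℕ, 0 < n → ∃ A : Matrix (Fin n) (Fin n) ℝ, A.det ≠ 0 ∧ Obtuse (dual A) ∧
      gam A = 2 / (n + 1 : ℝ) ^ ((1 : ℝ) / n)) ∧
    (∀ n : ℕ, 3 ≤ n → ∀ A : Matrix (Fin n) (Fin n) ℝ, A.det ≠ 0 →
      ∀ K : Matrix (Fin n) (Fin n) ℤ, K.det ≠ 0 → Dominant (A * K.map (Int.cast : ℤ → ℝ)) →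
      gam A ≤ (|K.det| : ℝ) ^ ((2 : ℝ) / n) * (2 / (4 : ℝ) ^ ((1 : ℝ) / n))) ∧
    (∀ n : ℕ, 3 ≤ n → ∃ A : Matrix (Fin n) (Fin n) ℝ, A.det ≠ 0 ∧ Dominant A ∧
      (∀ x : Fin n → ℝ, (∃ w : Fin n → ℤ, A.mulVec (fun j => (w j : ℝ)) = x) ↔
        ∃ z : Fin n → ℤ, Even (∑ i, z i) ∧ x = fun i => (z i : ℝ)) ∧
      gam A = 2 / (4 : ℝ) ^ ((1 : ℝ) / n)) ∧
    (∀ n : ℕ, 0 < n → ∀ A : Matrix (Fin n) (Fin n) ℝ, A.det ≠ 0 →
      ∀ K : Matrix (Fin n) (Fin n) ℤ, K.det ≠ 0 → Dominant (dual (A * K.map (Int.cast : ℤ → ℝ))) →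
      gam A ≤ (|K.det| : ℝ) ^ ((2 : ℝ) / n) * 2) ∧
    (∀ n : ℕ, 3 ≤ n → ∀ ρ : ℝ, 0 ≤ ρ → ∀ A : Matrix (Fin n) (Fin n) ℝ, A.det ≠ 0 →
      ρ * n ≤ gam A → ∀ K : Matrix (Fin n) (Fin n) ℤ, K.det ≠ 0 →
      (Dominant (A * K.map (Int.cast : ℤ → ℝ)) ∨
        Dominant (dual (A * K.map (Int.cast : ℤ → ℝ)))) →
      (ρ * n / 2) ^ ((n : ℝ) / 2) ≤ (|K.det| : ℝ)) := by
  have hdet : ∀ {n : ℕ} {A : Matrix (Fin n) (Fin n) ℝ}, A.det ≠ 0 →
      ∀ {K : Matrix (Fin n) (Fin n) ℤ}, K.det ≠ 0 →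
      (A * K.map (Int.cast : ℤ → ℝ)).det ≠ 0 := by
    intro n A hA K hK
    rw [Matrix.det_mul, det_map_cast]
    exact mul_ne_zero hA (by exact_mod_cast hK)
  have hdd : ∀ {n : ℕ} {M : Matrix (Fin n) (Fin n) ℝ}, M.det ≠ 0 → dual (dual M) = M := by
    intro n M hM
    rw [dual, dual, ← Matrix.transpose_nonsing_inv, Matrix.transpose_transpose,
      Matrix.nonsing_inv_nonsing_inv _ (isUnit_iff_ne_zero.mpr hM)]
  have hdual : ∀ {n : ℕ} {M : Matrix (Fin n) (Fin n) ℝ}, M.det ≠ 0 → (dual M).det ≠ 0 := by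
    intro n M hM
    rw [det_dual]
    exact inv_ne_zero hM
  have h4 : ∀ n : ℕ, 3 ≤ n → ∀ A : Matrix (Fin n) (Fin n) ℝ, A.det ≠ 0 →
      ∀ K : Matrix (Fin n) (Fin n) ℤ, K.det ≠ 0 → Dominant (A * K.map (Int.cast : ℤ → ℝ)) →
      gam A ≤ (|K.det| : ℝ) ^ ((2 : ℝ) / n) * (2 / (4 : ℝ) ^ ((1 : ℝ) / n)) := by
    intro n hn A hA K hK h
    exact (gam_sub (by omega) hA hK).trans
      (mul_le_mul_of_nonneg_left (h.bound hn (hdet hA hK)) (Real.rpow_nonneg (abs_nonneg _) _))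
  have h6 : ∀ n : ℕ, 0 < n → ∀ A : Matrix (Fin n) (Fin n) ℝ, A.det ≠ 0 →
      ∀ K : Matrix (Fin n) (Fin n) ℤ, K.det ≠ 0 → Dominant (dual (A * K.map (Int.cast : ℤ → ℝ))) →
      gam A ≤ (|K.det| : ℝ) ^ ((2 : ℝ) / n) * 2 := by
    intro n hn A hA K hK h
    have h1 := h.dual_bound hn (hdual (hdet hA hK))
    rw [hdd (hdet hA hK)] at h1
    exact (gam_sub hn hA hK).trans
      (mul_le_mul_of_nonneg_left h1 (Real.rpow_nonneg (abs_nonneg _) _))
  refine ⟨?_, ?_, ?_, h4, ?_, h6, ?_⟩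
  · intro n hn A hA K hK h
    refine (gam_sub hn hA hK).trans
      (mul_le_mul_of_nonneg_left ?_ (Real.rpow_nonneg (abs_nonneg _) _))
    rcases h with h | h
    · exact h.bound hn (hdet hA hK)
    · have h1 := h.dual_bound hn (hdual (hdet hA hK))
      rwa [hdd (hdet hA hK)] at h1
  · intro n hn
    refine ⟨amat n, ?_, obtuse_amat n, gram_amat n, gam_amat hn⟩
    intro h
    have h1 := det_amat_sq n
    rw [h] at h1
    have : (0 : ℝ) < n + 1 := by positivity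
    linarith [sq_nonneg (0 : ℝ)]
  · intro n hn
    obtain ⟨M, hM, hO, hg⟩ := exists_dual_eq hn
    refine ⟨dual M, hdual hM, ?_, hg⟩
    rwa [hdd hM]
  · intro n hn
    obtain ⟨N, rfl⟩ : ∃ N, n = N + 1 := ⟨n - 1, by omega⟩
    refine ⟨dreal N, dreal_det N, dominant_dreal (by omega), ?_, gam_dreal (by omega)⟩
    intro x
    constructor
    · rintro ⟨w, rfl⟩
      exact ⟨dmat N *ᵥ w, even_dmat N w, cast_mulVec _ _⟩
    · rintro ⟨z, hz, rfl⟩
      obtain ⟨y, hy⟩ := exists_of_even N z hz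
      exact ⟨y, by rw [dreal, cast_mulVec, hy]⟩
  · intro n hn ρ hρ A hA hg K hK h
    have hn' : (0 : ℝ) < n := by
      have : 0 < n := by omega
      exact_mod_cast this
    have h1 : gam A ≤ (|K.det| : ℝ) ^ ((2 : ℝ) / n) * 2 := by
      rcases h with h | h
      · refine (h4 n hn A hA K hK h).trans (mul_le_mul_of_nonneg_left ?_
          (Real.rpow_nonneg (abs_nonneg _) _))
        rw [div_le_iff₀ (Real.rpow_pos_of_pos (by norm_num) _)]
        have : (1 : ℝ) ≤ 4 ^ ((1 : ℝ) / n) := Real.one_le_rpow (by norm_num) (by positivity)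
        linarith
      · exact h6 n (by omega) A hA K hK h
    have h2 : ρ * n / 2 ≤ (|K.det| : ℝ) ^ ((2 : ℝ) / n) := by linarith
    have h3 := Real.rpow_le_rpow (by positivity) h2 (by positivity : (0 : ℝ) ≤ (n : ℝ) / 2)
    rw [← Real.rpow_mul (abs_nonneg _)] at h3
    have e : (2 : ℝ) / n * (n / 2) = 1 := by field_simp
    rwa [e, Real.rpow_one] at h3

end Pool.Agent.Results.MP_ef2672_gt.DominantGramMatrices
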