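import Pool.Agent.V8H47.IM.Frames

/-!
# MP_ef2672_gt: Hermite's constant and the indices of sublattices generated by short vectors

`A ℤⁿ` is a lattice, `gam A = λ₁² / det^(2/n)` its Hermite invariant, `hermite n = γ_n` the supremum.

Let `X_1, …, X_n` be independent random vectors with the same distribution on the vectors of a
lattice with squared length at most `(1 + η) λ₁²`, and let `I` be the index of the sublattice which
they generate (`0` if they are dependent). `maxMoment n η` is the supremum of the expectation of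
`I ^ 2` over all lattices and all distributions.

(1) `n! / n ^ n * γ_n ^ n ≤ maxMoment n η ≤ (1 + η) ^ n * n! / n ^ n * γ_n ^ n` for all `η > 0`.

(2) So the limit of `γ_n / n` exists if and only if the limit of `(maxMoment n η_n)^(1/n) / n`
exists, for any `η_n → 0`; the quotient of the limits is `e`.

(3) Lattices close to the maximum have `n` short vectors generating a sublattice of index at least
`(c γ / e) ^ (n / 2)`, explicitly: if `γ(M) ^ n ≥ e ^ (-κ) γ_n ^ n`, `κ (1 + 1 / η) < 1`.

(4) If `γ(M) ^ n ≥ e ^ (-1/4) γ_n ^ n` (the density of the packing is at least `e ^ (-1/8)` times the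
maximum), then `n` vectors of squared length at most `2 λ₁²` generate a sublattice of index at least
`(n / 2129) ^ (n / 2)`.

(5) For eutactic lattices the formula of (1) is an identity: if `∑ c_e x_e x_eᵀ` is the identity for
minimal vectors `x_e`, then `γ ^ n` is `n ^ n / n!` times the second moment of the index for the
probabilities `c_e λ₁² / n`.

(6) A lattice with a form `∑ c_e (v_e · y)²`, `v_e ≠ 0` integral, all determinants of `n` of the
vectors `v_e` of absolute value at most `D`, satisfies `γ ≤ D² √n`; its dual satisfies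
`γ ^ n ≤ e ^ n D²`; the product of the two minima is at most `D² √n`. For sublattices of index `k` one
has the additional factor `k^(2/n)`. For `D = 1` these are the lattices whose Voronoi cells are
zonotopes.

Proof of (1), (3). If the Gram matrix is moved away from the form of the ellipsoid of minimal volume
around the short vectors, then the minimum does not decrease; near the maximum the determinant cannot
decrease much, which bounds it by the determinant of this form; this determinant is the second moment
of the index (formula of Cauchy and Binet) for the optimal distribution.  Proof of (6): for real `y`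
the weighted sum of the `|v_e · y|` is at least `λ₁² / D²` times their maximum, since the minimum of
the quotient is attained at a vertex, whose coordinates have denominators at most `D`; with the
inequality of Cauchy and Schwarz this gives a short dual vector, and the dimension can be reduced.
-/

open Matrix Filter Topology

namespace Pool.Agent.Results.MP_ef2672_gt.IndexMoments

open Pool.Agent.H160R3.Herm Pool.Agent.TH220.HG Pool.Agent.V8H47.DDom Pool.Agent.V8H47.IM

theorem result :
    -- (1)
    (∀ n : ℕ, 0 < n → ∀ η : ℝ, 0 < η →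
      n.factorial * hermite n ^ n ≤ (n : ℝ) ^ n * maxMoment n η ∧
      (n : ℝ) ^ n * maxMoment n η ≤ n.factorial * ((1 + η) * hermite n) ^ n) ∧
    -- (2)
    (∀ η : ℕ → ℝ, (∀ n, 0 < η n) → Tendsto η atTop (𝓝 0) → ∀ c : ℝ,
      (Tendsto (fun n : ℕ => hermite n / n) atTop (𝓝 c) ↔
        Tendsto (fun n : ℕ => maxMoment n (η n) ^ ((1 : ℝ) / n) / n) atTop
          (𝓝 (c / Real.exp 1)))) ∧
    -- (3)
    (∀ n : ℕ, 0 < n → ∀ M : Matrix (Fin n) (Fin n) ℝ, M.det ≠ 0 → ∀ η κ : ℝ, 0 < η →
      κ * (1 + 1 / η) < 1 → hermite n ^ n ≤ Real.exp κ * gam M ^ n →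
      ∃ y : Fin n → Fin n → ℤ, (∀ i, nsq M (y i) ≤ (1 + η) * minSq M) ∧
        n.factorial * ((1 - κ * (1 + 1 / η)) * gam M) ^ n ≤
          (n : ℝ) ^ n * ((Matrix.of y).det : ℝ) ^ 2) ∧
    -- (4)
    (∀ n : ℕ, 0 < n → ∀ M : Matrix (Fin n) (Fin n) ℝ, M.det ≠ 0 →
      hermite n ^ n ≤ Real.exp (1 / 4) * gam M ^ n →
      ∃ y : Fin n → Fin n → ℤ, (∀ i, nsq M (y i) ≤ 2 * minSq M) ∧
        ((n : ℝ) / 2129) ^ n ≤ ((Matrix.of y).det : ℝ) ^ 2) ∧
    -- (5)
    (∀ n : ℕ, 0 < n → ∀ M : Matrix (Fin n) (Fin n) ℝ, M.det ≠ 0 → ∀ (m : ℕ)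
      (x : Fin m → Fin n → ℤ) (c : Fin m → ℝ), (∀ e, nsq M (x e) = minSq M) →
      (∀ i j, ∑ e, c e * (lv M (x e) i * lv M (x e) j) = if i = j then 1 else 0) →
      ∑ e, c e * (minSq M / n) = 1 ∧
      (n : ℝ) ^ n * indexMoment x (fun e => c e * (minSq M / n)) = n.factorial * gam M ^ n) ∧
    -- (6)
    (∀ n : ℕ, 0 < n → ∀ C : Matrix (Fin n) (Fin n) ℝ, C.det ≠ 0 →
      ∀ K : Matrix (Fin n) (Fin n) ℤ, K.det ≠ 0 → ∀ D : ℝ,
      (Dicing D (C * K.map (Int.cast : ℤ → ℝ)) →
        gam C ≤ (|K.det| : ℝ) ^ ((2 : ℝ) / n) * (D ^ 2 * √n)) ∧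
      (Dicing D (dual (C * K.map (Int.cast : ℤ → ℝ))) →
        gam C ^ n ≤ Real.exp 1 ^ n * (|(K.det : ℝ)| * D) ^ 2) ∧
      (Dicing D C → minSq C * minSq (dual C) ≤ D ^ 2 * √n)) := by
  refine ⟨fun n hn η hη => ⟨le_maxMoment hn hη, maxMoment_le hn hη.le⟩,
    fun η h0 hη c => limit_iff h0 hη c,
    fun n hn M hM η κ hη h1 h2 => exists_index hn hM hη h2 h1,
    fun n hn M hM h => exists_large_index hn hM h, ?_, ?_⟩
  · intro n hn M hM m x c hx hc
    refine eutactic_formula hn hM x hx ?_
    ext i j
    rw [Matrix.one_apply, ← hc i j]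
    rfl
  · intro n hn C hC K hK D
    exact ⟨sub_self hn hC hK, sub_dual hn hC hK, Dicing.product hn hC⟩

end Pool.Agent.Results.MP_ef2672_gt.IndexMoments
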