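import Pool.Agent.V8H47.TP.Main

/-!
# MP_ef2672_gt: tensor products of lattices are never near-optimal in large dimensions

`A ℤⁿ` is a lattice, `gam A = λ₁² / det^(2/n)` its Hermite invariant, `hermite n = γ_n` the supremum.
By Minkowski and Hlawka `liminf γ_n / n ≥ 1 / (2πe)`.

If `M` is (similar to) the tensor product of lattices of dimensions `a, b ≥ 2`, `n = a b`, then
`gam M ≤ (1 / (√3 π²) + ε) n` for large `n`, and `1 / (√3 π²) < 1 / (2πe)`: in all large dimensions the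
densest lattices, and all lattices at least as dense as the bound of Minkowski and Hlawka, are not
tensor products, and a sublattice which is a tensor product has exponentially large index.  This
depends on the bound `limsup γ_n / n ≤ 1 / π²` of the starting files (`Pool.Agent.W259.GP`); the bound
of Kabatianskii and Levenshtein would not suffice if one of the factors has dimension `2`.  If both
dimensions are large then `gam M ≤ (1 / π⁴ + ε) n`.
-/

open Matrix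

namespace Pool.Agent.Results.MP_ef2672_gt.TensorProducts

open Pool.Agent.H160R3.Herm Pool.Agent.TH220.HG Pool.Agent.V8H47.DDom Pool.Agent.V8H47.TP

theorem result :
    (∀ a b : ℕ, 0 < a → 0 < b → ∀ C : Matrix (Fin (a * b)) (Fin (a * b)) ℝ, C.det ≠ 0 →
      ∀ K : Matrix (Fin (a * b)) (Fin (a * b)) ℤ, K.det ≠ 0 →
      IsTensor a b (C * K.map (Int.cast : ℤ → ℝ)) →
      gam C ≤ (|K.det| : ℝ) ^ ((2 : ℝ) / (a * b : ℕ)) * (hermite a * hermite b)) ∧
    (∀ ε : ℝ, 0 < ε → ∃ N : ℕ, ∀ a b : ℕ, 2 ≤ a → 2 ≤ b → N ≤ a * b →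
      ∀ M : Matrix (Fin (a * b)) (Fin (a * b)) ℝ, M.det ≠ 0 → IsTensor a b M →
      gam M ≤ (1 / (√3 * Real.pi ^ 2) + ε) * (a * b : ℕ)) ∧
    1 / (√3 * Real.pi ^ 2) < 1 / (2 * Real.pi * Real.exp 1) ∧
    (∃ N : ℕ, ∀ a b : ℕ, 2 ≤ a → 2 ≤ b → N ≤ a * b →
      ∀ C : Matrix (Fin (a * b)) (Fin (a * b)) ℝ, C.det ≠ 0 →
      (a * b : ℕ) / (2 * Real.pi * Real.exp 1) ≤ gam C →
      ∀ K : Matrix (Fin (a * b)) (Fin (a * b)) ℤ, K.det ≠ 0 →
      IsTensor a b (C * K.map (Int.cast : ℤ → ℝ)) → (1.0003 : ℝ) ^ (a * b) ≤ (|K.det| : ℝ)) ∧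
    (∀ ε : ℝ, 0 < ε → ∃ N : ℕ, ∀ a b : ℕ, N ≤ a → N ≤ b →
      ∀ M : Matrix (Fin (a * b)) (Fin (a * b)) ℝ, M.det ≠ 0 → IsTensor a b M →
      gam M ≤ (1 / Real.pi ^ 4 + ε) * (a * b : ℕ)) ∧
    (∃ N : ℕ, ∀ a b : ℕ, N ≤ a → N ≤ b →
      ∀ C : Matrix (Fin (a * b)) (Fin (a * b)) ℝ, C.det ≠ 0 →
      (a * b : ℕ) / (2 * Real.pi * Real.exp 1) ≤ gam C →
      ∀ K : Matrix (Fin (a * b)) (Fin (a * b)) ℤ, K.det ≠ 0 →
      IsTensor a b (C * K.map (Int.cast : ℤ → ℝ)) → (2.38 : ℝ) ^ (a * b) ≤ (|K.det| : ℝ)) := by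
  have hpi := Real.pi_pos
  have he := Real.exp_pos 1
  have h3 : (0 : ℝ) < √3 := by positivity
  have hdet : ∀ {n : ℕ} {A : Matrix (Fin n) (Fin n) ℝ}, A.det ≠ 0 →
      ∀ {K : Matrix (Fin n) (Fin n) ℤ}, K.det ≠ 0 →
      (A * K.map (Int.cast : ℤ → ℝ)).det ≠ 0 := by
    intro n A hA K hK
    rw [Matrix.det_mul, det_map_cast]
    exact mul_ne_zero hA (by exact_mod_cast hK)
  -- the index
  have hidx : ∀ (n : ℕ), 0 < n → ∀ (C : Matrix (Fin n) (Fin n) ℝ), C.det ≠ 0 →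
      (n : ℝ) / (2 * Real.pi * Real.exp 1) ≤ gam C → ∀ K : Matrix (Fin n) (Fin n) ℤ, K.det ≠ 0 →
      ∀ c θ : ℝ, 0 < c → 0 < θ → gam (C * K.map (Int.cast : ℤ → ℝ)) ≤ θ * n →
      c ^ 2 * θ ≤ 1 / (2 * Real.pi * Real.exp 1) → c ^ n ≤ |(K.det : ℝ)| := by
    intro n hn C hC hg K hK c θ hc hθ h1 h2
    have hn' : (0 : ℝ) < n := by exact_mod_cast hn
    have h4 := gam_sub hn hC hK
    have hK' : (0 : ℝ) < |(K.det : ℝ)| := by
      rw [abs_pos]; exact_mod_cast hK
    have h5 : c ^ 2 * θ * n ≤ |(K.det : ℝ)| ^ ((2 : ℝ) / n) * (θ * n) := by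
      calc c ^ 2 * θ * n ≤ 1 / (2 * Real.pi * Real.exp 1) * n :=
            mul_le_mul_of_nonneg_right h2 hn'.le
        _ = n / (2 * Real.pi * Real.exp 1) := by ring
        _ ≤ gam C := hg
        _ ≤ _ := h4
        _ ≤ _ := mul_le_mul_of_nonneg_left h1 (Real.rpow_nonneg hK'.le _)
    have h6 : c ^ 2 ≤ |(K.det : ℝ)| ^ ((2 : ℝ) / n) := by
      have h7 : 0 < θ * n := by positivity
      have h8 : c ^ 2 * (θ * n) ≤ |(K.det : ℝ)| ^ ((2 : ℝ) / n) * (θ * n) := by linarith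
      exact le_of_mul_le_mul_right h8 h7
    have h9 := Real.rpow_le_rpow (by positivity) h6 (by positivity : (0 : ℝ) ≤ (n : ℝ) / 2)
    rw [← Real.rpow_mul hK'.le, ← Real.rpow_natCast c 2, ← Real.rpow_mul hc.le] at h9
    have e1 : (2 : ℝ) / n * (n / 2) = 1 := by field_simp
    have e2 : ((2 : ℕ) : ℝ) * ((n : ℝ) / 2) = n := by push_cast; ring
    rw [e1, e2, Real.rpow_one, Real.rpow_natCast] at h9
    exact h9
  refine ⟨?_, fun ε hε => tensor_bound hε, ?_, ?_, fun ε hε => tensor_bound_large hε, ?_⟩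
  · intro a b ha hb C hC K hK hT
    obtain ⟨A, B, hA, hB, hg⟩ := hT
    refine (gam_sub (Nat.mul_pos ha hb) hC hK).trans
      (mul_le_mul_of_nonneg_left ?_ (Real.rpow_nonneg (abs_nonneg _) _))
    refine (gam_le_mul ha hb (hdet hC hK) hA hB hg).trans ?_
    exact mul_le_mul (le_hermite ha A hA) (le_hermite hb B hB) (gam_nonneg B)
      ((gam_nonneg A).trans (le_hermite ha A hA))
  · apply div_lt_div_of_pos_left one_pos (by positivity)
    have := ratio_gt
    nlinarith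
  · obtain ⟨N, hN⟩ := tensor_bound (ε := 1 / 100000) (by norm_num)
    refine ⟨N, fun a b ha hb hab C hC hg K hK hT => ?_⟩
    have h1 := hN a b ha hb hab _ (hdet hC hK) hT
    refine hidx (a * b) (Nat.mul_pos (by omega) (by omega)) C hC hg K hK 1.0003 _ (by norm_num)
      (by positivity) h1 ?_
    have h2 := ratio_gt
    have h4 : 1.0008 * (1 / (√3 * Real.pi ^ 2)) ≤ 1 / (2 * Real.pi * Real.exp 1) := by
      rw [mul_one_div, div_le_div_iff₀ (by positivity) (by positivity)]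
      nlinarith
    have h5 : 1 / (√3 * Real.pi ^ 2) ≥ 1 / 18 := by
      apply div_le_div_of_nonneg_left (by norm_num) (by positivity)
      have h6 := Real.pi_lt_d2
      have h7 : √3 < 1.7321 := by
        rw [Real.sqrt_lt' (by norm_num)]
        norm_num
      have h8 : Real.pi ^ 2 < 3.15 ^ 2 := pow_lt_pow_left₀ h6 hpi.le (by norm_num)
      nlinarith
    nlinarith
  · obtain ⟨N, hN⟩ := tensor_bound_large (ε := 1 / 100000) (by norm_num)
    refine ⟨N + 1, fun a b ha hb C hC hg K hK hT => ?_⟩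
    have h1 := hN a b (by omega) (by omega) _ (hdet hC hK) hT
    refine hidx (a * b) (Nat.mul_pos (by omega) (by omega)) C hC hg K hK 2.38 _ (by norm_num)
      (by positivity) h1 ?_
    have h2 := ratio_gt_large
    have h4 : 5.7 * (1 / Real.pi ^ 4) ≤ 1 / (2 * Real.pi * Real.exp 1) := by
      rw [mul_one_div, div_le_div_iff₀ (by positivity) (by positivity)]
      nlinarith
    have h5 : 1 / Real.pi ^ 4 ≥ 1 / 100 := by
      apply div_le_div_of_nonneg_left (by norm_num) (by positivity)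
      have h6 := Real.pi_lt_d2
      have h8 : Real.pi ^ 4 < 3.15 ^ 4 := pow_lt_pow_left₀ h6 hpi.le (by norm_num)
      norm_num at h8
      linarith
    nlinarith

end Pool.Agent.Results.MP_ef2672_gt.TensorProducts
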