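import Pool.Agent.V8H47.VC.Main

/-! MP_ef2672_gt: Hermite's constant and the number of half-spaces cutting out the Voronoi cell.

`A ℤⁿ` is a lattice, `gam A = λ₁² / det^(2/n)` its Hermite invariant, `nsq A v = |A v|²`.
A finite set `S` of nonzero lattice vectors cuts out the open Voronoi cell of `0` if every point
nearer to `0` than to each `A v`, `v ∈ S`, is nearer to `0` than to every other lattice point;
`faces A` is the least size of such a set.

* For every such `S` and `r > 0`: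
  `vol(B_r) (1 - ∑_{v ∈ S, |v| < 2r} (1 - |v|² / 4r²)^(n/2)) ≤ det L`.
* For `b > 1`: if at most `b^(n/2)` vectors of `S` are shorter than `√(b/(b-1)) λ₁`, then
  `γ(L)/n ≤ 2 (1 - 1/b) / (πe) + o(1)`.
* For `b = 4/3` this is the believed bound `1/(2πe)`: it holds if `S` has at most
  `(4/3)^(n/2 + o(n))` vectors shorter than `2 λ₁`.
* `γ(L) ≤ 17 log (2 faces)`, and this is of the right order.
-/

open Filter MeasureTheory

namespace Pool.Agent.Results.MP_ef2672_gt.VoronoiHalfSpaces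

open Pool.Agent.H160R3.Herm Pool.Agent.TH220.HG Pool.Agent.V8H47.VC

open Classical in
theorem result :
    (∀ n : ℕ, 0 < n → ∀ A : Matrix (Fin n) (Fin n) ℝ, A.det ≠ 0 →
      ∀ S : Finset (Fin n → ℤ), Cuts A S → ∀ r : ℝ, 0 < r →
      (volume (Metric.ball (0 : EuclideanSpace ℝ (Fin n)) r)).toReal *
        (1 - ∑ v ∈ S with nsq A v < 4 * r ^ 2, (1 - nsq A v / (4 * r ^ 2)) ^ ((n : ℝ) / 2)) ≤
        |A.det|) ∧
    (∀ b ε : ℝ, 1 < b → 0 < ε → ∀ᶠ n : ℕ in atTop, ∀ A : Matrix (Fin n) (Fin n) ℝ, A.det ≠ 0 →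
      ∀ S : Finset (Fin n → ℤ), Cuts A S →
      ((S.filter fun v => nsq A v < b / (b - 1) * minSq A).card : ℝ) ≤ b ^ ((n : ℝ) / 2) →
      gam A / n ≤ 2 * (1 - 1 / b) / (Real.pi * Real.exp 1) + ε) ∧
    (∀ ε : ℝ, 0 < ε → ∃ δ : ℝ, 0 < δ ∧ ∀ᶠ n : ℕ in atTop,
      ∀ A : Matrix (Fin n) (Fin n) ℝ, A.det ≠ 0 →
      ∀ S : Finset (Fin n → ℤ), Cuts A S →
      ((S.filter fun v => nsq A v < 4 * minSq A).card : ℝ) ≤
        (4 / 3) ^ ((n : ℝ) / 2) * Real.exp (δ * n) →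
      gam A / n ≤ 1 / (2 * Real.pi * Real.exp 1) + ε) ∧
    (∀ n : ℕ, 0 < n → ∀ A : Matrix (Fin n) (Fin n) ℝ, A.det ≠ 0 →
      (∃ S : Finset (Fin n → ℤ), Cuts A S ∧ S.card = faces A) ∧ 1 ≤ faces A ∧
      faces A ≤ 2 ^ (n + 1) ∧ gam A ≤ 17 * Real.log (2 * faces A)) ∧
    (∀ k m : ℕ, 0 < k → 0 < m → ∃ A : Matrix (Fin (m * k)) (Fin (m * k)) ℝ, A.det ≠ 0 ∧
      faces A ≤ m * 2 ^ (k + 1) ∧ (k : ℝ) / 145 ≤ gam A ∧
      (m ≤ 2 ^ k → Real.log (faces A) ≤ 302 * gam A)) := by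
  refine ⟨fun n hn A hA S hS r hr => cut_general hn hA hS hr, ?_, ?_,
    fun n hn A hA => ⟨faces_spec hA, faces_pos hn hA, faces_le_two_pow hA, gam_le_log hn hA⟩,
    fun k m hk hm => exists_large hk hm⟩
  · intro b ε hb hε
    obtain ⟨δ, hδ, h⟩ := asym hb hε
    filter_upwards [h] with n h A hA S hS hN
    apply h A hA S hS
    refine hN.trans ?_
    have h1 : 1 ≤ Real.exp (δ * n) := Real.one_le_exp (by positivity)
    have h2 : 0 ≤ b ^ ((n : ℝ) / 2) := Real.rpow_nonneg (by linarith) _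
    nlinarith
  · intro ε hε
    obtain ⟨δ, hδ, h⟩ := asym (b := 4 / 3) (by norm_num) hε
    refine ⟨δ, hδ, ?_⟩
    filter_upwards [h] with n h A hA S hS hN
    have e1 : (4 / 3 : ℝ) / (4 / 3 - 1) = 4 := by norm_num
    have e2 : 2 * (1 - 1 / (4 / 3 : ℝ)) / (Real.pi * Real.exp 1) =
        1 / (2 * Real.pi * Real.exp 1) := by
      have := Real.pi_pos
      have := Real.exp_pos 1
      field_simp
      norm_num
    have := h A hA S hS
    rw [e1, e2] at this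
    exact this hN

end Pool.Agent.Results.MP_ef2672_gt.VoronoiHalfSpaces
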